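import Mathlib

/-!
# Project NS: quantitative Helly theorem for the diameter, `(2 + ε) d` members
(MP_882a21_co, non-symmetric families; proof by helper4, `/team-store/QH_nonsym_proof.md`)

Common definitions.
-/

set_option autoImplicit false

namespace Pool.Agent.Helper57.NS

open scoped BigOperators RealInnerProductSpace

/-- Euclidean space. -/
abbrev Eu (d : ℕ) := EuclideanSpace ℝ (Fin d)

/-- The vectors `v i` span the space (they have no common nonzero orthogonal vector). -/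
def Spn {d : ℕ} {ι : Type} (v : ι → Eu d) : Prop :=
  ∀ y : Eu d, (∀ i, ⟪v i, y⟫ = 0) → y = 0

/-- The weighted frame operator `x ↦ ∑ i, w i ⟪v i, x⟫ v i`. -/
noncomputable def frm {d : ℕ} {ι : Type} [Fintype ι] (v : ι → Eu d) (w : ι → ℝ) :
    Eu d →ₗ[ℝ] Eu d :=
  ∑ i, w i • (innerₛₗ ℝ (v i)).smulRight (v i)

theorem frm_apply {d : ℕ} {ι : Type} [Fintype ι] (v : ι → Eu d) (w : ι → ℝ) (x : Eu d) :
    frm v w x = ∑ i, (w i * ⟪v i, x⟫) • v i := by
  simp [frm, LinearMap.sum_apply, smul_smul]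

/-- The unweighted frame operator `x ↦ ∑ i, ⟪v i, x⟫ v i`. -/
noncomputable def fr {d : ℕ} {ι : Type} [Fintype ι] (v : ι → Eu d) : Eu d →ₗ[ℝ] Eu d :=
  frm v fun _ => 1

theorem fr_apply {d : ℕ} {ι : Type} [Fintype ι] (v : ι → Eu d) (x : Eu d) :
    fr v x = ∑ i, ⟪v i, x⟫ • v i := by
  simp [fr, frm_apply]

/-- The inverse of the frame operator (meaningful when `Spn v`). -/
noncomputable def fi {d : ℕ} {ι : Type} [Fintype ι] (v : ι → Eu d) : Eu d →ₗ[ℝ] Eu d :=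
  Ring.inverse (fr v)

/-- The leverage `x ↦ ⟪x, (fr v)⁻¹ x⟫`. -/
noncomputable def lev {d : ℕ} {ι : Type} [Fintype ι] (v : ι → Eu d) (x : Eu d) : ℝ :=
  ⟪x, fi v x⟫

/-- The facet normals scaled by the slacks at the point `o`. -/
noncomputable def sv {d : ℕ} {I : Type} (a : I → Eu d) (b : I → ℝ) (o : Eu d) (i : I) : Eu d :=
  (b i - ⟪a i, o⟫)⁻¹ • a i

/-- The functional `log det (∑ u u^T) - 2 log det A` for the list `f`. -/
noncomputable def val {d n : ℕ} {I : Type} (a : I → Eu d) (b : I → ℝ) (f : Fin n → I) (o : Eu d)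
    (A : Eu d →L[ℝ] Eu d) : ℝ :=
  Real.log (LinearMap.det (fr fun l => sv a b o (f l))) - 2 * Real.log A.det

/-- The data of an optimal pair `(o, A)` with its multipliers `c` for the list `f`. -/
structure Opt {d n : ℕ} {I : Type} [Fintype I] (a : I → Eu d) (b : I → ℝ) (f : Fin n → I)
    (o : Eu d) (A : Eu d →L[ℝ] Eu d) (c : I → ℝ) : Prop where
  det_pos : 0 < A.det
  feas : ∀ i, ⟪a i, o⟫ + ‖A (a i)‖ ≤ b i
  slack : ∀ i, ⟪a i, o⟫ < b i
  c_nonneg : ∀ i, 0 ≤ c i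
  act : ∀ i, c i ≠ 0 → ‖A (a i)‖ = b i - ⟪a i, o⟫
  sum_c : ∑ i, c i = d
  cen : ∑ i, c i • A (sv a b o i) =
    -∑ l, lev (fun l => sv a b o (f l)) (sv a b o (f l)) • A (sv a b o (f l))
  iso : ∀ w : Eu d, ∑ i, c i * ⟪A (sv a b o i), w⟫ ^ 2 = ‖w‖ ^ 2

end Pool.Agent.Helper57.NS
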