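import Mathlib
import Pool.Agent.Helper47.QH.Polytope
import Pool.Agent.Helper57.NS.Defs
import Pool.Agent.Helper57.NS.St.N1
import Pool.Agent.Helper57.NS.St.N3
import Pool.Agent.Helper57.NS.St.N6
import Pool.Agent.Helper57.NS.St.N7
import Pool.Agent.Helper57.NS.St.N8
import Pool.Agent.Helper57.NS.St.N9

set_option autoImplicit false

/-!
Project NS, piece N10: the frame theorem (Step 1 of the proof).
-/

namespace Pool.Agent.Helper57.NS

open scoped BigOperators RealInnerProductSpace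

theorem spn_smul {d : ℕ} {ι : Type} (v : ι → Eu d) (c : ι → ℝ) (hc : ∀ i, c i ≠ 0) (hv : Spn v) :
    Spn fun i => c i • v i := by
  intro y hy
  refine hv y fun i => ?_
  have h1 := hy i
  rw [real_inner_smul_left] at h1
  rcases mul_eq_zero.1 h1 with h | h
  · exact absurd h (hc i)
  · exact h

theorem spn_sv {d : ℕ} {ι I : Type} (a : I → Eu d) (b : I → ℝ) (o : Eu d)
    (hs : ∀ i, ⟪a i, o⟫ < b i) (f : ι → I) (hf : Spn fun l => a (f l)) :
    Spn fun l => sv a b o (f l) := by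
  refine spn_smul (fun l => a (f l)) (fun l => (b (f l) - ⟪a (f l), o⟫)⁻¹) (fun l => ?_) hf
  have := hs (f l)
  exact inv_ne_zero (by linarith)

/-- a bounded polytope: the normals span. -/
theorem spn_of_bdd {d : ℕ} {I : Type} [Fintype I] (a : I → Eu d) (b : I → ℝ) (R : ℝ)
    (hbdd : ∀ x : Eu d, (∀ i, ⟪a i, x⟫ ≤ b i) → ‖x‖ ≤ R)
    (x₀ : Eu d) (hint : ∀ i, ⟪a i, x₀⟫ < b i) : Spn a := by
  intro w hw
  by_contra hw0
  have hwpos : 0 < ‖w‖ := norm_pos_iff.2 hw0
  have h3 := hbdd (x₀ + ((R + ‖x₀‖ + 1) / ‖w‖) • w) (fun i => by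
    rw [inner_add_right, inner_smul_right, hw, mul_zero, add_zero]
    exact (hint i).le)
  have hR : 0 ≤ R := (norm_nonneg x₀).trans (hbdd x₀ fun i => (hint i).le)
  have h4 : ‖((R + ‖x₀‖ + 1) / ‖w‖) • w‖ = R + ‖x₀‖ + 1 := by
    rw [norm_smul, Real.norm_of_nonneg (by positivity), div_mul_cancel₀ _ hwpos.ne']
  have h5 : ‖((R + ‖x₀‖ + 1) / ‖w‖) • w‖ ≤ ‖x₀ + ((R + ‖x₀‖ + 1) / ‖w‖) • w‖ + ‖x₀‖ := by
    have := norm_sub_le (x₀ + ((R + ‖x₀‖ + 1) / ‖w‖) • w) x₀
    simpa using this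
  linarith

theorem exists_feas {d : ℕ} {I : Type} [Fintype I] (a : I → Eu d) (b : I → ℝ)
    (x₀ : Eu d) (hint : ∀ i, ⟪a i, x₀⟫ < b i) :
    ∃ r : ℝ, 0 < r ∧ ∀ i, ⟪a i, x₀⟫ + ‖(r • ContinuousLinearMap.id ℝ (Eu d)) (a i)‖ ≤ b i := by
  obtain ⟨ε, hε, hεi⟩ : ∃ ε : ℝ, 0 < ε ∧ ∀ i, ε * ‖a i‖ ≤ b i - ⟪a i, x₀⟫ := by
    have h1 : ∀ᶠ ε in nhdsWithin (0 : ℝ) (Set.Ioi 0), ∀ i, ε * ‖a i‖ ≤ b i - ⟪a i, x₀⟫ := by
      rw [Filter.eventually_all]
      intro i
      have h2 : Filter.Tendsto (fun ε : ℝ => ε * ‖a i‖) (nhds 0) (nhds (0 * ‖a i‖)) :=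
        (continuous_id.mul continuous_const).tendsto 0
      rw [zero_mul] at h2
      have h3 := h2.eventually (gt_mem_nhds (sub_pos.2 (hint i)))
      filter_upwards [nhdsWithin_le_nhds h3] with ε h using le_of_lt h
    obtain ⟨ε, h2, h3⟩ := (h1.and self_mem_nhdsWithin).exists
    exact ⟨ε, h3, h2⟩
  refine ⟨ε, hε, fun i => ?_⟩
  have h1 : (ε • ContinuousLinearMap.id ℝ (Eu d)) (a i) = ε • a i := rfl
  rw [h1, norm_smul, Real.norm_of_nonneg hε.le]
  linarith [hεi i]

theorem det_smul_id {d : ℕ} (r : ℝ) : (r • ContinuousLinearMap.id ℝ (Eu d)).det = r ^ d := by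
  rw [ContinuousLinearMap.det]
  have : ((r • ContinuousLinearMap.id ℝ (Eu d) : Eu d →L[ℝ] Eu d) : Eu d →ₗ[ℝ] Eu d) =
      r • LinearMap.id := rfl
  rw [this, LinearMap.det_smul, LinearMap.det_id, mul_one, finrank_euclideanSpace_fin]

/-- The frame theorem. -/
theorem frame {d : ℕ} (hd : 0 < d) {I : Type} [Fintype I] (a : I → Eu d) (b : I → ℝ) (R : ℝ)
    (hbdd : ∀ x : Eu d, (∀ i, ⟪a i, x⟫ ≤ b i) → ‖x‖ ≤ R)
    (x₀ : Eu d) (hint : ∀ i, ⟪a i, x₀⟫ < b i) (α : ℝ) (hα : 176 ≤ α) :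
    ∃ (o : Eu d) (n : ℕ) (f : Fin n → I), (∀ i, ⟪a i, o⟫ < b i) ∧ d ≤ n ∧
      (n : ℝ) * (1 - 22 / α) ≤ d ∧ (Spn fun l => sv a b o (f l)) ∧
      (∀ i (y : Eu d), ⟪sv a b o i, y⟫ ^ 2 ≤ 22 * α * ∑ l, ⟪sv a b o (f l), y⟫ ^ 2) ∧
      ∀ y : Eu d, (∀ i, ⟪sv a b o i, y⟫ ≤ 1) → ∑ l, |⟪sv a b o (f l), y⟫| ≤ 6 * d := by
  classical
  have hd' : (0 : ℝ) < d := by exact_mod_cast hd
  have hα0 : 0 < α := by linarith
  have hspn : Spn a := spn_of_bdd a b R hbdd x₀ hint
  -- optimal pairs for all spanning lists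
  have hex : ∀ (n : ℕ) (f : Fin n → I), ∃ (o : Eu d) (A : Eu d →L[ℝ] Eu d) (c : I → ℝ),
      (Spn fun l => a (f l)) → Opt a b f o A c ∧
        ∀ (o' : Eu d) (A' : Eu d →L[ℝ] Eu d), 0 < A'.det →
          (∀ i, ⟪a i, o'⟫ + ‖A' (a i)‖ ≤ b i) → (∀ i, ⟪a i, o'⟫ < b i) →
          val a b f o A ≤ val a b f o' A' := by
    intro n f
    by_cases hf : Spn fun l => a (f l)
    · obtain ⟨o, A, h1, h2, h3, h4⟩ := exists_min a b R hbdd x₀ hint f hf
      obtain ⟨c, hc⟩ := multipliers hd a b f hf o A h1 h2 h3 h4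
      exact ⟨o, A, c, fun _ => ⟨hc, h4⟩⟩
    · exact ⟨0, 0, 0, fun h => absurd h hf⟩
  choose o A c hoA using hex
  obtain ⟨r, hr, hfeas⟩ := exists_feas a b x₀ hint
  obtain ⟨C, hC, hCi⟩ : ∃ C : ℝ, 0 < C ∧ ∀ i, ‖sv a b x₀ i‖ ^ 2 ≤ C := by
    refine ⟨∑ i, ‖sv a b x₀ i‖ ^ 2 + 1, by positivity, fun i => ?_⟩
    have := Finset.single_le_sum (f := fun i => ‖sv a b x₀ i‖ ^ 2) (fun i _ => sq_nonneg _)
      (Finset.mem_univ i)
    linarith
  obtain ⟨n, f, hf, hmax⟩ := exists_maximal_list (I := I) (fun n f => Spn fun l => a (f l))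
    (fun n f => val a b f (o n f) (A n f) - n * Real.log α)
    (fun n => (d : ℝ) * Real.log (n * C) + (-(2 * (d * Real.log r))) - n * Real.log α)
    (tendsto_bound d C _ α hC (by linarith)) (by
      intro n f hf
      have h1 := (hoA n f hf).2 x₀ (r • ContinuousLinearMap.id ℝ (Eu d))
        (by rw [det_smul_id]; positivity) hfeas hint
      have h2 : Spn fun l => sv a b x₀ (f l) := spn_sv a b x₀ hint f hf
      have h3 := log_det_le_trace _ h2
      have h4 : ∑ l, ‖sv a b x₀ (f l)‖ ^ 2 ≤ n * C := by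
        refine (Finset.sum_le_sum fun l _ => hCi (f l)).trans ?_
        rw [Finset.sum_const, Finset.card_univ, Fintype.card_fin, nsmul_eq_mul]
      have h5 : 0 < ∑ l, ‖sv a b x₀ (f l)‖ ^ 2 := by
        by_contra hcon
        have h6 : ∑ l, ‖sv a b x₀ (f l)‖ ^ 2 = 0 :=
          le_antisymm (not_lt.1 hcon) (Finset.sum_nonneg fun _ _ => sq_nonneg _)
        have h7 : ∀ l, sv a b x₀ (f l) = 0 := by
          intro l
          have := (Finset.sum_eq_zero_iff_of_nonneg (fun l _ => sq_nonneg _)).1 h6 l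
            (Finset.mem_univ l)
          exact norm_eq_zero.1 (pow_eq_zero_iff (two_ne_zero) |>.1 this)
        have h8 := h2 (EuclideanSpace.single ⟨0, hd⟩ 1) fun l => by
          change ⟪sv a b x₀ (f l), _⟫ = (0 : ℝ)
          rw [h7, inner_zero_left]
        have h9 := congrArg norm h8
        rw [PiLp.norm_single] at h9
        simp at h9
      have h6 := Real.log_le_log h5 h4
      have h7 : val a b f x₀ (r • ContinuousLinearMap.id ℝ (Eu d)) ≤
          d * Real.log (n * C) - 2 * (d * Real.log r) := by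
        rw [val, det_smul_id, Real.log_pow]
        have := mul_le_mul_of_nonneg_left h6 hd'.le
        linarith
      linarith)
    (by
      obtain ⟨f₀, hf₀⟩ := Pool.Agent.Helper47.QH.exists_basis a b R hbdd x₀ hint
      refine ⟨Fintype.card I, fun l => (Fintype.equivFin I).symm l, ?_⟩
      intro y hy
      refine hspn y fun i => ?_
      have := hy (Fintype.equivFin I i)
      simpa using this)
  obtain ⟨hopt, -⟩ := hoA n f hf
  have hsv : Spn fun l => sv a b (o n f) (f l) := spn_sv a b _ hopt.slack f hf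
  -- adding
  have hadd : ∀ k : I, lev (fun l => sv a b (o n f) (f l)) (sv a b (o n f) k) ≤ 22 * α := by
    intro k
    have hcons : Spn fun l => a ((Fin.cons k f : Fin (n + 1) → I) l) := by
      intro y hy
      refine hf y fun l => ?_
      have := hy l.succ
      simpa using this
    have hopt' := (hoA (n + 1) (Fin.cons k f) hcons).1
    have h1 := main_add a b (Fin.cons k f : Fin (n + 1) → I) 0 (by simpa using hf) (o n f) (A n f)
      (c n f) (by simpa using hopt) (o (n + 1) (Fin.cons k f)) (A (n + 1) (Fin.cons k f))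
      hopt'.det_pos hopt'.feas hopt'.slack
    simp only [Fin.zero_succAbove, Fin.cons_succ, Fin.cons_zero] at h1
    have h2 := hmax (n + 1) (Fin.cons k f) hcons
    push_cast at h2
    have h3 := lev_nonneg _ hsv (sv a b (o n f) k)
    set q := lev (fun l => sv a b (o n f) (f l)) (sv a b (o n f) k) with hq
    have h4 : Real.log (1 + q) ≤ Real.log (22 * α) := by
      rw [Real.log_mul (by norm_num) hα0.ne']
      linarith
    have h5 := (Real.log_le_log_iff (by linarith) (by positivity)).1 h4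
    linarith
  -- removing
  have hrem : ∀ l, 1 - 22 / α ≤ lev (fun l => sv a b (o n f) (f l)) (sv a b (o n f) (f l)) := by
    intro l
    by_contra hcon
    push Not at hcon
    have h22 : 0 < 22 / α := by positivity
    obtain ⟨m, rfl⟩ : ∃ m, n = m + 1 := ⟨n - 1, by have := l.pos; omega⟩
    have hl1 : lev (fun l => sv a b (o _ f) (f l)) (sv a b (o _ f) (f l)) < 1 := by linarith
    have hsv' := spn_remove _ l hsv hl1
    have hrm : Spn fun i : Fin m => a (f (l.succAbove i)) := by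
      intro y hy
      refine hsv' y fun i => ?_
      change ⟪(b (f (l.succAbove i)) - ⟪a (f (l.succAbove i)), o _ f⟫)⁻¹ •
        a (f (l.succAbove i)), y⟫ = (0 : ℝ)
      rw [real_inner_smul_left, hy i, mul_zero]
    have hopt' := (hoA m (fun i => f (l.succAbove i)) hrm).1
    have h1 := main_remove a b f l hf (o _ f) (A _ f) (c _ f) hopt hl1
      (o m (fun i => f (l.succAbove i))) (A m (fun i => f (l.succAbove i)))
      hopt'.det_pos hopt'.feas hopt'.slack
    have h2 := hmax m (fun i => f (l.succAbove i)) hrm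
    push_cast at h2
    set q := lev (fun l => sv a b (o _ f) (f l)) (sv a b (o _ f) (f l)) with hq
    have h4 : Real.log (1 - q) ≤ Real.log (22 / α) := by
      rw [Real.log_div (by norm_num) hα0.ne']
      linarith
    have h5 := (Real.log_le_log_iff (by linarith) h22).1 h4
    linarith
  have hsum := sum_lev _ hsv
  have h78 : (1 : ℝ) / 2 ≤ 1 - 22 / α := by
    have : 22 / α ≤ 1 / 8 := by
      rw [div_le_iff₀ hα0]
      linarith
    linarith
  refine ⟨o n f, n, f, hopt.slack, ?_, ?_, hsv, ?_, ?_⟩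
  · have h1 : (d : ℝ) ≤ n := by
      rw [← hsum]
      refine (Finset.sum_le_sum fun l _ => lev_le_one _ hsv l).trans ?_
      simp
    exact_mod_cast h1
  · have h1 : ∑ _l : Fin n, (1 - 22 / α) ≤ ∑ l, lev (fun l => sv a b (o n f) (f l))
        (sv a b (o n f) (f l)) := Finset.sum_le_sum fun l _ => hrem l
    rw [Finset.sum_const, Finset.card_univ, Fintype.card_fin, nsmul_eq_mul, hsum] at h1
    exact h1
  · intro i y
    refine (inner_sq_le _ hsv _ y).trans ?_
    exact mul_le_mul_of_nonneg_right (hadd i) (Finset.sum_nonneg fun _ _ => sq_nonneg _)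
  · intro y hy
    obtain ⟨B, hBA, -, -⟩ := Pool.Agent.Helper47.QH.exists_inv (A n f) hopt.det_pos
    have h1 := congrArg B hopt.cen
    simp only [map_sum, map_neg, map_smul, hBA] at h1
    have h2 : ∑ l, lev (fun l => sv a b (o n f) (f l)) (sv a b (o n f) (f l)) *
        ⟪sv a b (o n f) (f l), y⟫ = -∑ i, c n f i * ⟪sv a b (o n f) i, y⟫ := by
      have h3 := congrArg (fun z => ⟪z, y⟫) h1
      simp only [sum_inner, inner_neg_left, real_inner_smul_left] at h3
      linarith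
    have h3 : -(d : ℝ) ≤ -∑ i, c n f i * ⟪sv a b (o n f) i, y⟫ := by
      rw [neg_le_neg_iff, ← hopt.sum_c]
      refine Finset.sum_le_sum fun i _ => ?_
      have := mul_le_mul_of_nonneg_left (hy i) (hopt.c_nonneg i)
      linarith
    have h4 : ∀ l, (1 / 2) * |⟪sv a b (o n f) (f l), y⟫| ≤
        lev (fun l => sv a b (o n f) (f l)) (sv a b (o n f) (f l)) *
          (2 - ⟪sv a b (o n f) (f l), y⟫) := by
      intro l
      have h5 : |⟪sv a b (o n f) (f l), y⟫| ≤ 2 - ⟪sv a b (o n f) (f l), y⟫ := by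
        rw [abs_le]
        constructor <;> linarith [hy (f l)]
      have h6 := hrem l
      have h7 := abs_nonneg ⟪sv a b (o n f) (f l), y⟫
      calc (1 / 2) * |⟪sv a b (o n f) (f l), y⟫| ≤
          lev (fun l => sv a b (o n f) (f l)) (sv a b (o n f) (f l)) *
            |⟪sv a b (o n f) (f l), y⟫| := mul_le_mul_of_nonneg_right (by linarith) h7
        _ ≤ _ := mul_le_mul_of_nonneg_left h5 (by linarith)
    have h5 := Finset.sum_le_sum fun l (_ : l ∈ Finset.univ) => h4 l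
    rw [← Finset.mul_sum] at h5
    have h6 : ∑ l, lev (fun l => sv a b (o n f) (f l)) (sv a b (o n f) (f l)) *
          (2 - ⟪sv a b (o n f) (f l), y⟫) = 2 * d -
        ∑ l, lev (fun l => sv a b (o n f) (f l)) (sv a b (o n f) (f l)) *
          ⟪sv a b (o n f) (f l), y⟫ := by
      rw [← hsum, Finset.mul_sum, ← Finset.sum_sub_distrib]
      exact Finset.sum_congr rfl fun l _ => by ring
    rw [h6, h2] at h5
    linarith

end Pool.Agent.Helper57.NS
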