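import Mathlib
import Pool.Agent.Helper47.QH.Polytope
import Pool.Agent.Helper57.NS.N10
import Pool.Agent.Helper57.NS.St.N11
import Pool.Agent.Helper57.NS.St.N12
import Pool.Agent.Helper57.NS.St.N13
import Pool.Agent.Helper4.NS.Iterate

set_option autoImplicit false

/-!
Project NS, piece N16: polytopes.
-/

namespace Pool.Agent.Helper57.NS

open scoped BigOperators RealInnerProductSpace

/-- The constant. -/
noncomputable def KK (d : ℕ) (ε : ℝ) : ℝ :=
  50000000000 * √d * Real.log (2 * d) / (ε * √ε)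

theorem log2d {d : ℕ} (hd : 0 < d) : (0.693 : ℝ) ≤ Real.log (2 * d) := by
  have h1 : (1 : ℝ) ≤ d := by exact_mod_cast hd
  have h2 : Real.log 2 ≤ Real.log (2 * d) := Real.log_le_log (by norm_num) (by linarith)
  have := Real.log_two_gt_d9
  linarith

/-- small `ε d`: the linear bound. -/
theorem small_case {d : ℕ} (hd : 0 < d) (ε : ℝ) (hε : 0 < ε) (hε1 : ε ≤ 1) (h : ε * d < 2) :
    14 * (d : ℝ) ≤ KK d ε := by
  have hd' : (1 : ℝ) ≤ d := by exact_mod_cast hd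
  have hlog := log2d hd
  have hs : 0 < √ε := Real.sqrt_pos.2 hε
  have hs1 : √ε ≤ 1 := Real.sqrt_le_one.2 hε1
  have hsd : 0 < √(d : ℝ) := Real.sqrt_pos.2 (by linarith)
  have hss : √ε * √ε = ε := Real.mul_self_sqrt hε.le
  have hdd : √(d : ℝ) * √(d : ℝ) = d := Real.mul_self_sqrt (by linarith)
  have h1 : √ε * √(d : ℝ) ≤ 2 := by
    rw [← Real.sqrt_mul hε.le]
    apply Real.sqrt_le_iff.2
    constructor
    · norm_num
    · linarith
  rw [KK, le_div_iff₀ (by positivity)]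
  have h2 : 14 * (d : ℝ) * (ε * √ε) = 14 * √(d : ℝ) * ε * (√ε * √(d : ℝ)) := by
    calc 14 * (d : ℝ) * (ε * √ε) = 14 * (√(d : ℝ) * √(d : ℝ)) * (ε * √ε) := by rw [hdd]
      _ = _ := by ring
  rw [h2]
  calc 14 * √(d : ℝ) * ε * (√ε * √(d : ℝ)) ≤ 14 * √(d : ℝ) * 1 * 2 := by gcongr
    _ ≤ 50000000000 * √(d : ℝ) * 0.693 := by nlinarith
    _ ≤ _ := by gcongr

/-- The numerical inequality at the end. -/
theorem numeric {d n q : ℕ} (hd : 0 < d) (ε : ℝ) (hε : 0 < ε) (hε1 : ε ≤ 1)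
    (hn : (n : ℝ) ≤ 8 / 7 * d) (hdn : d ≤ n) (hq : ε * d / 4 ≤ q) (hq0 : 0 < q) (D ψ Y Z : ℝ)
    (hD : 0 < D) (hY0 : 0 ≤ Y) (hY : Y ≤ 9 * d) (hψ0 : 0 ≤ ψ)
    (hψ : 73 / 100 * ψ ≤ 2 + 2 * (1000000 * (63 / √ε) * Real.log (2 * n) / q * Y))
    (hZ : Z ≤ D * √(3 * d) * ψ) : 2 * Z ≤ KK d ε * D := by
  have hd' : (1 : ℝ) ≤ d := by exact_mod_cast hd
  have hlog := log2d hd
  have hs : 0 < √ε := Real.sqrt_pos.2 hε
  have hs1 : √ε ≤ 1 := Real.sqrt_le_one.2 hε1
  have hsd : 0 < √(d : ℝ) := Real.sqrt_pos.2 (by linarith)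
  have hq' : (0 : ℝ) < q := by exact_mod_cast hq0
  have hdn' : (d : ℝ) ≤ n := by exact_mod_cast hdn
  have hlogn : Real.log (2 * n) ≤ 2 * Real.log (2 * d) := by
    have h1 : Real.log (2 * n) ≤ Real.log ((2 * d) ^ 2) := by
      apply Real.log_le_log (by linarith)
      nlinarith
    rw [Real.log_pow] at h1
    exact_mod_cast h1
  have hlogn0 : 0 ≤ Real.log (2 * n) := Real.log_nonneg (by linarith)
  set L := Real.log (2 * (d : ℝ)) with hL
  have h1 : Y / q ≤ 36 / ε := by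
    rw [div_le_div_iff₀ hq' hε]
    nlinarith
  have h2 : 1000000 * (63 / √ε) * Real.log (2 * n) / q * Y ≤ 4536000000 * L / (ε * √ε) := by
    calc 1000000 * (63 / √ε) * Real.log (2 * n) / q * Y =
        63000000 / √ε * Real.log (2 * n) * (Y / q) := by ring
      _ ≤ 63000000 / √ε * (2 * L) * (36 / ε) := by
          gcongr
      _ = _ := by ring
  have h3 : 1 ≤ 2 * L / (ε * √ε) := by
    rw [le_div_iff₀ (by positivity)]
    have : ε * √ε ≤ 1 := by nlinarith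
    linarith
  have h4 : ψ ≤ 13000000000 * (L / (ε * √ε)) := by
    have e1 : 2 * L / (ε * √ε) = 2 * (L / (ε * √ε)) := by ring
    have e2 : 4536000000 * L / (ε * √ε) = 4536000000 * (L / (ε * √ε)) := by ring
    rw [e1] at h3
    rw [e2] at h2
    linarith
  have h5 : √(3 * (d : ℝ)) ≤ 1.7321 * √(d : ℝ) := by
    rw [Real.sqrt_mul (by norm_num)]
    apply mul_le_mul_of_nonneg_right _ hsd.le
    apply Real.sqrt_le_iff.2
    constructor <;> norm_num
  have h6 : 0 ≤ L / (ε * √ε) := by positivity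
  calc 2 * Z ≤ 2 * (D * √(3 * d) * ψ) := by linarith
    _ ≤ 2 * (D * (1.7321 * √(d : ℝ)) * (13000000000 * (L / (ε * √ε)))) := by gcongr
    _ = 45034600000 * (√(d : ℝ) * (L / (ε * √ε)) * D) := by ring
    _ ≤ 50000000000 * (√(d : ℝ) * (L / (ε * √ε)) * D) := by
        apply mul_le_mul_of_nonneg_right (by norm_num) (by positivity)
    _ = _ := by rw [KK]; ring

/-- Polytopes. -/
theorem polytope {d : ℕ} (hd : 0 < d) (ε : ℝ) (hε : 0 < ε) (hε1 : ε ≤ 1) {I : Type} [Fintype I]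
    (a : I → Eu d) (b : I → ℝ) (D : ℝ)
    (hD : ∀ x y : Eu d, (∀ i, ⟪a i, x⟫ ≤ b i) → (∀ i, ⟪a i, y⟫ ≤ b i) → ‖x - y‖ ≤ D)
    (x₀ : Eu d) (hint : ∀ i, ⟪a i, x₀⟫ < b i) :
    ∃ s : Finset I, (s.card : ℝ) ≤ (2 + ε) * d ∧
      ∀ x y : Eu d, (∀ i ∈ s, ⟪a i, x⟫ ≤ b i) → (∀ i ∈ s, ⟪a i, y⟫ ≤ b i) →
        ‖x - y‖ ≤ KK d ε * D := by
  classical
  have hd' : (1 : ℝ) ≤ d := by exact_mod_cast hd
  have hD0 : 0 ≤ D := by
    have := hD x₀ x₀ (fun i => (hint i).le) (fun i => (hint i).le)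
    simpa using this
  rcases lt_or_ge (ε * d) 2 with hsm | hbig
  · obtain ⟨s, hs, h⟩ := Pool.Agent.Helper47.QH.polytope hd a b D hD x₀ hint
    refine ⟨s, ?_, fun x y hx hy => (h x y hx hy).trans ?_⟩
    · have h1 : (s.card : ℝ) ≤ 2 * d := by exact_mod_cast hs
      nlinarith
    · exact mul_le_mul_of_nonneg_right (small_case hd ε hε hε1 hsm) hD0
  have hbdd : ∀ x : Eu d, (∀ i, ⟪a i, x⟫ ≤ b i) → ‖x‖ ≤ D + ‖x₀‖ := by
    intro x hx
    have h1 := hD x x₀ hx fun i => (hint i).le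
    have h2 : ‖x‖ ≤ ‖x - x₀‖ + ‖x₀‖ := by
      have := norm_add_le (x - x₀) x₀
      simpa using this
    linarith
  obtain ⟨r, hr, hfeas⟩ := exists_feas a b x₀ hint
  have hDpos : 0 < D := by
    have h1 : ∀ i, ⟪a i, x₀ + r • EuclideanSpace.single (⟨0, hd⟩ : Fin d) (1 : ℝ)⟫ ≤ b i := by
      intro i
      rw [inner_add_right, inner_smul_right]
      have h2 := hfeas i
      have h3 : ‖(r • ContinuousLinearMap.id ℝ (Eu d)) (a i)‖ = r * ‖a i‖ := by
        have h4 : (r • ContinuousLinearMap.id ℝ (Eu d)) (a i) = r • a i := rfl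
        rw [h4, norm_smul, Real.norm_of_nonneg hr.le]
      rw [h3] at h2
      have h5 := real_inner_le_norm (a i) (EuclideanSpace.single (⟨0, hd⟩ : Fin d) (1 : ℝ))
      rw [PiLp.norm_single, norm_one, mul_one] at h5
      nlinarith
    have h2 := hD _ x₀ h1 fun i => (hint i).le
    rw [add_sub_cancel_left, norm_smul, PiLp.norm_single, norm_one, mul_one,
      Real.norm_of_nonneg hr.le] at h2
    linarith
  set α : ℝ := 176 / ε with hαdef
  have hα : 176 ≤ α := by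
    rw [hαdef, le_div_iff₀ hε]
    nlinarith
  obtain ⟨o, n, f, hs, hdn, hn, hspn, hlev, hL1⟩ := frame hd a b _ hbdd x₀ hint α hα
  have h22 : 22 / α = ε / 8 := by
    rw [hαdef]
    field_simp
    norm_num
  rw [h22] at hn
  have hn1 : (n : ℝ) ≤ (1 + ε / 4) * d := by
    have h1 : (1 + ε / 4) * (n * (1 - ε / 8)) ≤ (1 + ε / 4) * d :=
      mul_le_mul_of_nonneg_left hn (by positivity)
    have h2 : (n : ℝ) ≤ (1 + ε / 4) * (n * (1 - ε / 8)) := by
      have h3 : (0 : ℝ) ≤ n := Nat.cast_nonneg n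
      have h4 : (1 : ℝ) ≤ (1 + ε / 4) * (1 - ε / 8) := by nlinarith
      nlinarith
    linarith
  have hn2 : (n : ℝ) ≤ 8 / 7 * d := by
    have h3 : (0 : ℝ) ≤ n := Nat.cast_nonneg n
    nlinarith
  -- the scaled facets
  set u : I → Eu d := fun i => sv a b o i with hu
  have hpol : ∀ (i : I) (y : Eu d), ⟪u i, y⟫ ≤ 1 ↔ ⟪a i, o + y⟫ ≤ b i := by
    intro i y
    have h1 : 0 < b i - ⟪a i, o⟫ := by linarith [hs i]
    rw [hu]
    simp only [sv]
    rw [real_inner_smul_left, inv_mul_le_iff₀ h1, inner_add_right]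
    constructor <;> intro h <;> linarith
  have hbu : ∀ y : Eu d, (∀ i, ⟪u i, y⟫ ≤ 1) → ‖y‖ ≤ D := by
    intro y hy
    have := hD (o + y) o (fun i => (hpol i y).1 (hy i)) (fun i => (hs i).le)
    simpa using this
  obtain ⟨ν, hν0, hν1, hνc, hν⟩ := measure hd u D hDpos hbu
  -- the number of spare places
  set q : ℕ := ⌊ε * d / 2⌋₊ with hqdef
  have hqle : (q : ℝ) ≤ ε * d / 2 := Nat.floor_le (by positivity)
  have hq1 : 1 ≤ q := Nat.le_floor (by push_cast; linarith)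
  have hq1' : (1 : ℝ) ≤ q := by exact_mod_cast hq1
  have hqge : ε * d / 4 ≤ q := by
    have h1 := Nat.lt_floor_add_one (ε * d / 2)
    rw [← hqdef] at h1
    linarith
  have hqn : q ≤ n := by
    have h1 : (q : ℝ) ≤ n := by
      have h2 : (d : ℝ) ≤ n := by exact_mod_cast hdn
      nlinarith
    exact_mod_cast h1
  have hDs : 0 < D * √(3 * d) := by positivity
  obtain ⟨S, g, hg⟩ := exists_list u ν hν0 hν1 hνc (1 / (100 * (D * √(3 * d)))) (by positivity)
    q hq1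
  have hsε : 0 < √ε := Real.sqrt_pos.2 hε
  have hsε1 : √ε ≤ 1 := Real.sqrt_le_one.2 hε1
  have hC0 : 1 ≤ 63 / √ε := by
    rw [le_div_iff₀ hsε]
    linarith
  have hC2 : 22 * α ≤ (63 / √ε) ^ 2 := by
    rw [div_pow, Real.sq_sqrt hε.le, hαdef, mul_div_assoc', div_le_div_iff₀ hε hε]
    nlinarith
  obtain ⟨g', hg'⟩ := Pool.Agent.Helper4.NS.iterate hq1 hqn (fun l => u (f l)) hspn (63 / √ε) hC0 u (by
    intro i y
    refine (hlev i y).trans ?_
    exact mul_le_mul_of_nonneg_right hC2 (Finset.sum_nonneg fun _ _ => sq_nonneg _)) S g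
  obtain ⟨W, p, hWc, hp0, hpc, hpW⟩ := dual_combo u D hbu (-∑ l, u (f l)) (6 * d)
    (by positivity) (by
      intro y hy
      have h1 := hL1 y hy
      rw [inner_neg_left, sum_inner]
      refine le_trans ?_ h1
      rw [← Finset.sum_neg_distrib]
      exact Finset.sum_le_sum fun l _ => neg_le_abs _)
  refine ⟨(Finset.univ.image f ∪ W) ∪ Finset.univ.image g', ?_, ?_⟩
  · have h1 : (Finset.univ.image f).card ≤ n := by
      refine Finset.card_image_le.trans ?_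
      simp
    have h2 : (Finset.univ.image g').card ≤ q := by
      refine Finset.card_image_le.trans ?_
      simp
    have h3 := Finset.card_union_le (Finset.univ.image f ∪ W) (Finset.univ.image g')
    have h4 := Finset.card_union_le (Finset.univ.image f) W
    have h5 : ((Finset.univ.image f ∪ W) ∪ Finset.univ.image g').card ≤ n + d + q := by omega
    have h6 : ((((Finset.univ.image f ∪ W) ∪ Finset.univ.image g').card : ℕ) : ℝ) ≤ n + d + q := by
      exact_mod_cast h5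
    nlinarith
  have key : ∀ y : Eu d, (∀ i ∈ (Finset.univ.image f ∪ W) ∪ Finset.univ.image g',
      ⟪a i, y⟫ ≤ b i) → 2 * ‖y - o‖ ≤ KK d ε * D := by
    intro y hy
    obtain ⟨z, hz⟩ : ∃ z, z = y - o := ⟨_, rfl⟩
    rw [← hz]
    have hz1 : ∀ i ∈ (Finset.univ.image f ∪ W) ∪ Finset.univ.image g', ⟪u i, z⟫ ≤ 1 := by
      intro i hi
      rw [hpol, hz, add_sub_cancel]
      exact hy i hi
    have hf1 : ∀ l, ⟪u (f l), z⟫ ≤ 1 := fun l => hz1 _ (Finset.mem_union_left _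
      (Finset.mem_union_left _ (Finset.mem_image_of_mem f (Finset.mem_univ l))))
    have hW1 : ∀ i ∈ W, ⟪u i, z⟫ ≤ 1 := fun i hi => hz1 _ (Finset.mem_union_left _
      (Finset.mem_union_right _ hi))
    have hg1 : ∀ l, ⟪u (g' l), z⟫ ≤ 1 := fun l => hz1 _ (Finset.mem_union_right _
      (Finset.mem_image_of_mem g' (Finset.mem_univ l)))
    -- the `ℓ₁` bound
    set Y := ∑ l, |⟪u (f l), z⟫| with hY
    have hY0 : 0 ≤ Y := Finset.sum_nonneg fun _ _ => abs_nonneg _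
    have hY9 : Y ≤ 9 * d := by
      have h1 : -∑ l, ⟪u (f l), z⟫ ≤ 6 * d := by
        have h2 := congrArg (fun w => ⟪w, z⟫) hpW
        simp only [sum_inner, inner_neg_left, real_inner_smul_left] at h2
        rw [← h2]
        refine le_trans (Finset.sum_le_sum fun i hi => ?_) hpc
        have := mul_le_mul_of_nonneg_left (hW1 i hi) (hp0 i)
        linarith
      have h2 : Y ≤ ∑ l, (2 - ⟪u (f l), z⟫) := by
        refine Finset.sum_le_sum fun l _ => ?_
        rw [abs_le]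
        constructor <;> linarith [hf1 l]
      rw [Finset.sum_sub_distrib, Finset.sum_const, Finset.card_univ, Fintype.card_fin,
        nsmul_eq_mul] at h2
      nlinarith
    obtain ⟨h1, h2⟩ := hg z
    obtain ⟨h3, h4⟩ := hg' z
    set ψ := ∑ i, ν i * |⟪u i, z⟫| with hψ
    have hψ0 : 0 ≤ ψ := Finset.sum_nonneg fun i _ => mul_nonneg (hν0 i) (abs_nonneg _)
    have hzψ : ‖z‖ ≤ D * √(3 * d) * ψ := hν z
    have hδ : 1 / (100 * (D * √(3 * d))) * ‖z‖ ≤ ψ / 100 := by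
      calc 1 / (100 * (D * √(3 * d))) * ‖z‖ ≤ 1 / (100 * (D * √(3 * d))) * (D * √(3 * d) * ψ) :=
            mul_le_mul_of_nonneg_left hzψ (by positivity)
        _ = ψ / 100 := by field_simp
    set AS := (∑ l, |⟪u (g l), z⟫|) / ((2 ^ S * q : ℕ) : ℝ) with hAS
    set DS := (∑ l, ⟪u (g l), z⟫) / ((2 ^ S * q : ℕ) : ℝ) with hDS
    set Λ := 1000000 * (63 / √ε) * Real.log (2 * n) / q with hΛ
    have hq' : (0 : ℝ) < q := by linarith
    have h5 : (∑ l, |⟪u (g' l), z⟫|) / (q : ℝ) + (∑ l, ⟪u (g' l), z⟫) / (q : ℝ) ≤ 2 := by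
      rw [← add_div, ← Finset.sum_add_distrib, div_le_iff₀ hq']
      have h6 : ∑ l, (|⟪u (g' l), z⟫| + ⟪u (g' l), z⟫) ≤ ∑ _l : Fin q, (2 : ℝ) := by
        refine Finset.sum_le_sum fun l _ => ?_
        rcases abs_cases ⟪u (g' l), z⟫ with ⟨h, _⟩ | ⟨h, _⟩
        · rw [h]; linarith [hg1 l]
        · rw [h]; linarith
      rw [Finset.sum_const, Finset.card_univ, Fintype.card_fin, nsmul_eq_mul] at h6
      linarith
    have h6 := (abs_le.1 h4).1
    have h7 := (abs_le.1 h2).1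
    have h8 : 73 / 100 * ψ ≤ 2 + 2 * (Λ * Y) := by
      have h3' : 9 / 10 * AS - Λ * Y ≤ (∑ l, |⟪u (g' l), z⟫|) / (q : ℝ) := h3
      have h6' : -(3 / 20 * AS + Λ * Y) ≤ (∑ l, ⟪u (g' l), z⟫) / (q : ℝ) - DS := h6
      linarith
    exact numeric hd ε hε hε1 hn2 hdn hqge (by omega) D ψ Y ‖z‖ hDpos hY0 hY9 hψ0 h8 hzψ
  intro x y hx hy
  have h1 := key x hx
  have h2 := key y hy
  have h3 : x - y = (x - o) - (y - o) := by abel
  rw [h3]
  refine (norm_sub_le _ _).trans ?_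
  linarith

end Pool.Agent.Helper57.NS
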